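import Pool.Agent.Helper2.LD.St1

set_option autoImplicit false

namespace Pool.Agent.Helper77.LD

open Pool.Agent.Helper2.LD

private theorem pPI {V W : Type} (G : SimpleGraph V) (H : SimpleGraph W) (r : ℕ)
    (p : List (V × W)) (h : EF G H r p) : PI G H p := by
  cases r with
  | zero => exact h
  | succ r => exact h.1

private theorem pSub {V W : Type} (G : SimpleGraph V) (H : SimpleGraph W) (r : ℕ) :
    ∀ p q : List (V × W), (∀ x ∈ q, x ∈ p) → EF G H r p → EF G H r q := by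
  have hPI : ∀ p q : List (V × W), (∀ x ∈ q, x ∈ p) → PI G H p → PI G H q :=
    fun p q h hp x hx y hy => hp x (h x hx) y (h y hy)
  induction r with
  | zero => exact fun p q h hp => hPI p q h hp
  | succ r ih =>
    intro p q h hp
    have hc : ∀ a : V × W, ∀ x ∈ a :: q, x ∈ a :: p := by
      intro a x hx
      rcases List.mem_cons.1 hx with rfl | hx
      · exact List.mem_cons_self
      · exact List.mem_cons_of_mem _ (h x hx)
    refine ⟨hPI p q h hp.1, fun v => ?_, fun w => ?_⟩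
    · obtain ⟨w, hw⟩ := hp.2.1 v
      exact ⟨w, ih _ _ (hc _) hw⟩
    · obtain ⟨v, hv⟩ := hp.2.2 w
      exact ⟨v, ih _ _ (hc _) hv⟩

private theorem pMono {V W : Type} (G : SimpleGraph V) (H : SimpleGraph W) (r : ℕ) :
    ∀ p : List (V × W), EF G H (r + 1) p → EF G H r p := by
  induction r with
  | zero => exact fun p hp => hp.1
  | succ r ih =>
    intro p hp
    refine ⟨hp.1, fun v => ?_, fun w => ?_⟩
    · obtain ⟨w, hw⟩ := hp.2.1 v
      exact ⟨w, ih _ hw⟩
    · obtain ⟨v, hv⟩ := hp.2.2 w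
      exact ⟨v, ih _ hv⟩

private theorem pSymm {V W : Type} (G : SimpleGraph V) (H : SimpleGraph W) (r : ℕ) :
    ∀ p : List (V × W), EF G H r p → EF H G r (p.map Prod.swap) := by
  have hPI : ∀ p : List (V × W), PI G H p → PI H G (p.map Prod.swap) := by
    intro p hp x hx y hy
    obtain ⟨a, ha, rfl⟩ := List.mem_map.1 hx
    obtain ⟨b, hb, rfl⟩ := List.mem_map.1 hy
    have h1 := hp a ha b hb
    exact ⟨h1.1.symm, h1.2.symm⟩
  induction r with
  | zero => exact fun p hp => hPI p hp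
  | succ r ih =>
    intro p hp
    refine ⟨hPI p hp.1, fun w => ?_, fun v => ?_⟩
    · obtain ⟨v, hv⟩ := hp.2.2 w
      exact ⟨v, ih _ hv⟩
    · obtain ⟨w, hw⟩ := hp.2.1 v
      exact ⟨w, ih _ hw⟩

private theorem pTrans {V W U : Type} (G : SimpleGraph V) (H : SimpleGraph W)
    (J : SimpleGraph U) (r : ℕ) : ∀ l : List (V × W × U),
    EF G H r (l.map fun x => (x.1, x.2.1)) → EF H J r (l.map fun x => (x.2.1, x.2.2)) →
    EF G J r (l.map fun x => (x.1, x.2.2)) := by
  have hPI : ∀ l : List (V × W × U), PI G H (l.map fun x => (x.1, x.2.1)) →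
      PI H J (l.map fun x => (x.2.1, x.2.2)) → PI G J (l.map fun x => (x.1, x.2.2)) := by
    intro l h1 h2 x hx y hy
    obtain ⟨a, ha, rfl⟩ := List.mem_map.1 hx
    obtain ⟨b, hb, rfl⟩ := List.mem_map.1 hy
    have k1 := h1 (a.1, a.2.1) (List.mem_map.2 ⟨a, ha, rfl⟩) (b.1, b.2.1)
      (List.mem_map.2 ⟨b, hb, rfl⟩)
    have k2 := h2 (a.2.1, a.2.2) (List.mem_map.2 ⟨a, ha, rfl⟩) (b.2.1, b.2.2)
      (List.mem_map.2 ⟨b, hb, rfl⟩)
    exact ⟨k1.1.trans k2.1, k1.2.trans k2.2⟩
  induction r with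
  | zero => exact fun l h1 h2 => hPI l h1 h2
  | succ r ih =>
    intro l h1 h2
    refine ⟨hPI l h1.1 h2.1, fun v => ?_, fun u => ?_⟩
    · obtain ⟨w, hw⟩ := h1.2.1 v
      obtain ⟨u, hu⟩ := h2.2.1 w
      exact ⟨u, ih ((v, w, u) :: l) hw hu⟩
    · obtain ⟨w, hw⟩ := h2.2.2 u
      obtain ⟨v, hv⟩ := h1.2.2 w
      exact ⟨v, ih ((v, w, u) :: l) hv hw⟩

private theorem pIso {V W : Type} (G : SimpleGraph V) (H : SimpleGraph W) (φ : G ≃g H)
    (r : ℕ) : ∀ l : List V, EF G H r (l.map fun v => (v, φ v)) := by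
  have hPI : ∀ l : List V, PI G H (l.map fun v => (v, φ v)) := by
    intro l x hx y hy
    obtain ⟨a, ha, rfl⟩ := List.mem_map.1 hx
    obtain ⟨b, hb, rfl⟩ := List.mem_map.1 hy
    exact ⟨φ.injective.eq_iff.symm, φ.map_adj_iff.symm⟩
  induction r with
  | zero => exact fun l => hPI l
  | succ r ih =>
    intro l
    refine ⟨hPI l, fun v => ⟨φ v, ih (v :: l)⟩, fun w => ⟨φ.symm w, ?_⟩⟩
    have h1 := ih (φ.symm w :: l)
    rw [List.map_cons, RelIso.apply_symm_apply] at h1
    exact h1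

theorem pEFb : StEFb where
  sub := fun G H r p q h hp => pSub G H r p q h hp
  mono := fun G H r p h => pMono G H r p h
  pi := fun G H r p h => pPI G H r p h
  symm := fun G H r p h => pSymm G H r p h
  trans := fun G H J r l h1 h2 => pTrans G H J r l h1 h2
  iso := fun G H φ r l => pIso G H φ r l

end Pool.Agent.Helper77.LD
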